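import Pool.Agent.Run7.h694.PF.D
import Pool.Agent.Results.MP_6b977f_mp.ValueDistribution

/-!
# Value distribution of high energy eigenfunctions of planar domains: the fourth moment (MP_6b977f_mp)

`Ω ⊆ ℂ` is a nonempty open set of finite area, `u n` are real solutions of `Δ u + λ_n u = 0` in `Ω`,
normalised by `∫_Ω u² = |Ω|`; no boundary condition and no regularity of the boundary is used.
`fraction` and `IsWeakLimit` (the weak limits, along subsequences, of the laws of `u n` for the
normalised area of the whole domain) are the definitions of the file `ValueDistribution` of this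
folder, `lapl f = ∂x² f + ∂y² f`.

The operator `D = λ^{-1/2} (∂x - i ∂y)` has, at a unit momentum of direction `α`, the symbol
`sym α = i exp(-iα)`. `HasSemiclassicalMeasure Ω lam u ν` says that the sequence has the semiclassical
measure `ν_z(dα) dz` on the unit cosphere bundle over `Ω`: the mass `u² dz` becomes equidistributed,
and `ν_z` is the law of the direction of the momentum at `z`. Quantum ergodicity is the case of the
uniform `ν_z`. For the random wave the fourth moment is `3`, and all values are possible.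

The theorem: if the mean of `u⁴` over the domain is at most `κ` in the limit, then at most the
proportion `(κ - 3) / (κ - 2)` of the area of the domain carries small values, and every limit law of
the values has the first three moments of the standard normal law, gives at least `1 / (2 κ)` to the
positive and to the negative numbers, satisfies the tail bound of Chebyshev, Markov and Stieltjes,
has an atom of mass at most `(κ - 3) / (κ - 2)` at zero, and its remaining part is equivalent to the
Lebesgue measure on an open interval around zero. For `κ = 3`, the value of the random wave, the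
limit laws are equivalent to the Lebesgue measure on an interval around zero, at least a sixth of the
area carries positive, and at least a sixth negative values, and the tails are at most `2 / (t⁴ + 3)`.

Proof. The small value inequality and the vanishing of the third moments in the interior (starting
tree, in the form of MP_a52643_an.FourthMomentLimitLaws) with a test function which is one on most of
the domain; the fourth moment controls the rest up to the boundary. Quartic polynomials for the signs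
and the tails. The density: the starting theorem `ValueDistribution`, in which an atom at zero was not
excluded.
-/

set_option autoImplicit false
open MeasureTheory Filter Topology Complex ProbabilityTheory
open scoped ContDiff ENNReal BoundedContinuousFunction

namespace Pool.Agent.Results.MP_6b977f_mp.FourthMomentLimitLaws

noncomputable section

open Pool.Agent.Results.MP_a52643_an.AbsoluteContinuity (lapl)
open Pool.Agent.Results.MP_6b977f_mp.ValueDistribution (fraction IsWeakLimit)

/-- smooth functions with compact support in `Ω` -/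
def TF (Ω : Set ℂ) (φ : ℂ → ℝ) : Prop := ContDiff ℝ ∞ φ ∧ HasCompactSupport φ ∧ tsupport φ ⊆ Ω

/-- the normalised derivative `λ^{-1/2} (∂x - i ∂y)` -/
def D (lam : ℝ) (f : ℂ → ℂ) (z : ℂ) : ℂ :=
  ((1 / √lam : ℝ) : ℂ) * (fderiv ℝ f z 1 - I * fderiv ℝ f z I)

/-- the symbol of `D` at a unit momentum of direction `α` -/
def sym (α : ℝ) : ℂ := I * Complex.exp (-(α : ℂ) * I)

/-- the probability that two independent directions of law `ν` are parallel (equal or opposite) -/
def parallel (ν : Measure ℝ) : ℝ :=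
  (ν.prod ν).real {p | Real.sin (p.1 - p.2) = 0}

/-- the sequence `u n` has the semiclassical measure `ν_z(dα) dz` over `Ω` -/
def HasSemiclassicalMeasure (Ω : Set ℂ) (lam : ℕ → ℝ) (u : ℕ → ℂ → ℝ) (ν : Kernel ℂ ℝ) : Prop :=
  ∀ φ, TF Ω φ → ∀ k : ℕ, Tendsto (fun n => ∫ z, (φ z : ℂ) * ((u n z : ℂ) *
      (D (lam n))^[k] (fun w => (u n w : ℂ)) z)) atTop
      (𝓝 (∫ z, (φ z : ℂ) * ∫ α, sym α ^ k ∂(ν z)))

/-- **The fourth moment and the value distribution of eigenfunctions of planar domains.** Let `u n`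
be real solutions of `Δ u + lam n u = 0`, `0 < lam n → ∞`, in the nonempty open set `Ω ⊆ ℝ²` of finite
area, with `∫_Ω (u n)² = |Ω|` and with a semiclassical measure `ν_z(dα) dz` over `Ω` such that `ν_z` has
no atoms modulo `π` for almost all `z` (for instance, a quantum ergodic sequence). Let
`∫_Ω (u n)⁴ ≤ (κ + o(1)) |Ω|`. Then:

(1) `κ ≥ 3`. (2) For every `η > 0` there is `t > 0` such that for all large `n` at most the proportion
`(κ - 3) / (κ - 2) + η` of the area of `Ω` carries values `|u n| ≤ t`. (3) Every subsequence has a limit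
law. (4) Every limit law `P` of the values over `Ω` has the moments `0`, `1`, `0` of orders one, two
and three and a fourth moment at most `κ`; (5) `P({0}) ≤ (κ - 3) / (κ - 2)`; (6) the positive numbers
have probability at least `1 / (2 κ)`, and the negative ones as well; (7) for `t ≥ 1` the
probabilities of `[t, ∞)` and of `(-∞, -t]` are at most `1 / (1 + t² + (t² - 1)² / (κ - 1))`;
(8) outside `0` the measure `P` is equivalent to the Lebesgue measure on an open interval `J` which
contains `0`, and if `κ = 3`, then `P` itself is equivalent to the Lebesgue measure on `J`. -/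
theorem result (Ω : Set ℂ) (hΩ : IsOpen Ω) (hne : Ω.Nonempty) (hfin : volume Ω ≠ ⊤)
    (lam : ℕ → ℝ) (hpos : ∀ n, 0 < lam n) (hlam : Tendsto lam atTop atTop)
    (u : ℕ → ℂ → ℝ) (hu : ∀ n, ContDiffOn ℝ ∞ (u n) Ω)
    (he : ∀ n, ∀ z ∈ Ω, lapl (u n) z + lam n * u n z = 0)
    (h2 : ∀ n, ∫ z in Ω, u n z ^ 2 = (volume Ω).toReal)
    (h4 : ∀ n, IntegrableOn (fun z => u n z ^ 4) Ω volume)
    (ν : Kernel ℂ ℝ) [IsMarkovKernel ν] (hsc : HasSemiclassicalMeasure Ω lam u ν)
    (hpar : ∀ᵐ z ∂(volume.restrict Ω), parallel (ν z) = 0) (κ : ℝ)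
    (hκ : ∀ δ : ℝ, 0 < δ → ∀ᶠ n in atTop, ∫ z in Ω, u n z ^ 4 ≤ (κ + δ) * (volume Ω).toReal) :
    3 ≤ κ ∧
    (∀ η : ℝ, 0 < η → ∃ t : ℝ, 0 < t ∧ ∀ᶠ n in atTop,
      fraction Ω (u n) (Set.Icc (-t) t) ≤ (κ - 3) / (κ - 2) + η) ∧
    (∀ σ : ℕ → ℕ, StrictMono σ →
      ∃ P : Measure ℝ, IsProbabilityMeasure P ∧ IsWeakLimit Ω (fun n => u (σ n)) P) ∧
    ∀ P : Measure ℝ, IsProbabilityMeasure P → IsWeakLimit Ω u P →
      (Integrable (fun x => x ^ 4) P ∧ ∫ x, x ∂P = 0 ∧ ∫ x, x ^ 2 ∂P = 1 ∧ ∫ x, x ^ 3 ∂P = 0 ∧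
        ∫ x, x ^ 4 ∂P ≤ κ) ∧
      P.real {0} ≤ (κ - 3) / (κ - 2) ∧
      (1 / (2 * κ) ≤ P.real (Set.Ioi 0) ∧ 1 / (2 * κ) ≤ P.real (Set.Iio 0)) ∧
      (∀ t : ℝ, 1 ≤ t → P.real (Set.Ici t) ≤ 1 / (1 + t ^ 2 + (t ^ 2 - 1) ^ 2 / (κ - 1)) ∧
        P.real (Set.Iic (-t)) ≤ 1 / (1 + t ^ 2 + (t ^ 2 - 1) ^ 2 / (κ - 1))) ∧
      ∃ J : Set ℝ, IsOpen J ∧ J.OrdConnected ∧ (0 : ℝ) ∈ J ∧
        P.restrict {0}ᶜ ≪ volume.restrict J ∧ volume.restrict J ≪ P.restrict {0}ᶜ ∧
        (κ = 3 → P ≪ volume.restrict J ∧ volume.restrict J ≪ P) := by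
  have V0 : 0 < (volume Ω).toReal := ENNReal.toReal_pos (hΩ.measure_pos volume hne).ne' hfin
  have fv : IsFiniteMeasure (volume.restrict Ω) :=
    ⟨by rw [Measure.restrict_apply_univ]; exact hfin.lt_top⟩
  have i2 : ∀ n, IntegrableOn (fun z => u n z ^ 2) Ω volume := by
    intro n
    refine Integrable.mono' ((integrable_const (1 : ℝ)).add (h4 n))
      (((hu n).continuousOn.pow 2).aestronglyMeasurable hΩ.measurableSet) (ae_of_all _ fun z => ?_)
    show ‖u n z ^ 2‖ ≤ 1 + u n z ^ 4
    rw [Real.norm_eq_abs, abs_of_nonneg (sq_nonneg _)]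
    nlinarith [sq_nonneg (u n z ^ 2 - 1), sq_nonneg (u n z)]
  obtain ⟨B, hB⟩ : ∃ B : ℝ, ∀ n, ∫ z in Ω, u n z ^ 4 ≤ B := by
    obtain ⟨N, hN⟩ := eventually_atTop.1 (hκ 1 one_pos)
    have nn : ∀ n, 0 ≤ ∫ z in Ω, u n z ^ 4 := fun n =>
      setIntegral_nonneg hΩ.measurableSet fun z _ => by positivity
    have s0 : 0 ≤ ∑ i ∈ Finset.range N, ∫ z in Ω, u i z ^ 4 := Finset.sum_nonneg fun i _ => nn i
    refine ⟨|(κ + 1) * (volume Ω).toReal| + ∑ i ∈ Finset.range N, ∫ z in Ω, u i z ^ 4, fun n => ?_⟩
    rcases lt_or_ge n N with h | h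
    · have h1 := Finset.single_le_sum (f := fun i => ∫ z in Ω, u i z ^ 4) (fun i _ => nn i)
        (Finset.mem_range.2 h)
      have h2 := abs_nonneg ((κ + 1) * (volume Ω).toReal)
      have h3 : ∫ z in Ω, u n z ^ 4 ≤ ∑ i ∈ Finset.range N, ∫ z in Ω, u i z ^ 4 := h1
      linarith
    · have := hN n h
      have := le_abs_self ((κ + 1) * (volume Ω).toReal)
      linarith
  have G : Pool.Agent.Y139.PD.GHyp Ω lam u :=
    ⟨hΩ, hne, hfin, hlam, hu, he, i2, fun n => (h2 n).le⟩
  have H : Run7.h694.PF.PH Ω lam u ν B :=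
    ⟨G, hpos, h2, h4, hB, inferInstance, hsc, hpar⟩
  obtain ⟨k3, small⟩ := H.small hκ
  have k1 : 1 < κ := by linarith
  refine ⟨k3, fun η hη => ?_, fun σ hσ => ?_, fun P hP hlim => ?_⟩
  · obtain ⟨t, t0, ht⟩ := small η hη
    refine ⟨t, t0, ht.mono fun n hn => ?_⟩
    unfold fraction
    rw [div_le_iff₀ V0]
    exact hn
  · obtain ⟨ψ, hψ, Q, hQ⟩ := Pool.Agent.N252.LL.prok1
      (fun n => Pool.Agent.Y139.PD.gP G (σ n)) (M := 2) (fun n => by
        have ia := Pool.Agent.Y139.PD.int1 G (σ n)
        refine ⟨Pool.Agent.Y139.PD.glaw_integrable G (σ n) (g := fun x => |x|) continuous_abs ia, ?_⟩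
        have e1 : ∫ x, |x| ∂((Pool.Agent.Y139.PD.gP G (σ n) : ProbabilityMeasure ℝ) : Measure ℝ) =
          (∫ z in Ω, |u (σ n) z|) / (volume Ω).toReal :=
            Pool.Agent.Y139.PD.glaw_int G (σ n) continuous_abs
        rw [e1, div_le_iff₀ V0]
        have e2 : ∫ z in Ω, |u (σ n) z| ≤ ∫ z in Ω, (1 + u (σ n) z ^ 2) := by
          refine integral_mono ia ((integrable_const (1 : ℝ)).add (i2 _)) fun z => ?_
          show |u (σ n) z| ≤ 1 + u (σ n) z ^ 2
          rw [← sq_abs (u (σ n) z)]
          nlinarith [sq_nonneg (|u (σ n) z| - 1), abs_nonneg (u (σ n) z)]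
        refine e2.trans (le_of_eq ?_)
        rw [integral_add (integrable_const (1 : ℝ)) (i2 _), h2, setIntegral_const, smul_eq_mul,
          mul_one, measureReal_def]
        ring)
    refine ⟨Q, inferInstance, ψ, hψ, fun g cg bg => ?_⟩
    obtain ⟨M, hM⟩ := bg
    have h := (ProbabilityMeasure.tendsto_iff_forall_integral_tendsto.1 hQ)
      (BoundedContinuousFunction.ofNormedAddCommGroup g cg M hM)
    refine h.congr fun n => ?_
    exact Pool.Agent.Y139.PD.glaw_int G (σ (ψ n)) cg
  · obtain ⟨σ, hσ, hg⟩ := id hlim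
    obtain ⟨M, hz⟩ := H.law hκ hσ P hg
    obtain ⟨s1, s2, s3⟩ := M.all k1
    refine ⟨⟨M.i4, M.m1, M.m2, M.m3, M.m4⟩, hz, ⟨s1, s2⟩, s3, ?_⟩
    obtain ⟨C, hC⟩ := Pool.Agent.Results.MP_6b977f_mp.ValueDistribution.result
    obtain ⟨-, h⟩ := hC Ω lam u hΩ hne hfin hlam hu he i2 h2
    obtain ⟨-, -, h3⟩ := h P hP hlim
    rcases h3 with h3 | ⟨J, J1, J2, J3, J4, J5⟩
    · exfalso
      have e : P.real {0} = 1 := by rw [measureReal_def, h3, ENNReal.toReal_one]
      rw [e, le_div_iff₀ (by linarith)] at hz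
      linarith
    · refine ⟨J, J1, J2, J3, J4, J5, fun k => ?_⟩
      have z1 : P {0} = 0 := by
        have h0 : P.real {0} = 0 := by
          refine le_antisymm (hz.trans ?_) measureReal_nonneg
          rw [k]; norm_num
        exact (measureReal_eq_zero_iff (measure_ne_top _ _)).1 h0
      have e : P.restrict {0}ᶜ = P := by
        refine Measure.restrict_eq_self_of_ae_mem ?_
        rw [ae_iff]
        refine measure_mono_null (fun x hx => ?_) z1
        simpa using hx
      rw [e] at J4 J5
      exact ⟨J4, J5⟩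

end

end Pool.Agent.Results.MP_6b977f_mp.FourthMomentLimitLaws
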