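import Pool.Agent.TH421.AZ.Main

/-!
# Small values of high energy eigenfunctions of planar domains (MP_6b977f_mp)

The plane is `ℂ`; `dx f z`, `dy f z` are the partial derivatives `fderiv ℝ f z 1`,
`fderiv ℝ f z I`, `lap f = dx (dx f) + dy (dy f)`; `TF U φ` says that `φ : ℂ → ℝ` is smooth with
compact support contained in `U`.

The operator `D = λ^{-1/2} (∂x - i ∂y)` has, at a unit momentum of direction `α`, the symbol
`sym α = i exp(-iα)`. The hypothesis `hsc` says that `u n` has the semiclassical measure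
`m(z) ν_z(dα) dz` on the unit cosphere bundle over `Ω`. Quantum ergodicity is the case `m = 1`,
`ν_z` uniform. The hypothesis `hpar` says that `ν_z` has no atoms modulo `π`.

The theorem: the eigenfunctions cannot be small on most of the domain unless their fourth moment is
large. With the fourth moment of the random wave, `∫ φ u⁴ → 3 ∫ φ` for a quantum ergodic sequence,
the proportion of the points with `|u| > s` tends to one when `s` tends to zero, uniformly in the
eigenvalue; so the fourth moment alone excludes that mass is lost in the local limits of the random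
wave conjecture, or that a positive proportion of the domain carries no mass.

Proof: the development `Pool/Agent/TH421` of the starting tree (there for surfaces).
-/

set_option autoImplicit false
open MeasureTheory Filter Topology Complex ProbabilityTheory
open scoped ContDiff ENNReal

namespace Pool.Agent.Results.MP_6b977f_mp.SmallValues

open Pool.Agent.W745.RW

/-- the normalised derivative `λ^{-1/2} (∂x - i ∂y)` -/
noncomputable def D (lam : ℝ) (f : ℂ → ℂ) (z : ℂ) : ℂ :=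
  ((1 / √lam : ℝ) : ℂ) * (dx f z - I * dy f z)

/-- the symbol of `D` at a unit momentum of direction `α` -/
noncomputable def sym (α : ℝ) : ℂ := I * Complex.exp (-(α : ℂ) * I)

/-- the probability that two independent directions of law `ν` are parallel (equal or opposite) -/
noncomputable def parallel (ν : Measure ℝ) : ℝ :=
  (ν.prod ν).real {p | Real.sin (p.1 - p.2) = 0}

/-- **Result.** Let `u n` be real solutions of `Δu + λ_n u = 0` on the open set `Ω ⊆ ℝ²`,
`λ_n → ∞`, with semiclassical measure `m(z) ν_z dz`, `m` locally square integrable and `ν_z`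
without atoms modulo `π`. Let `K ⊆ Ω` be compact and `φ ≥ 0` a test function supported in the
interior of `K`. (1) For every `ε > 0` there is `s > 0` such that, for all large `n`, the square of
`∫ φ m` is at most `∫_{|u n| > s} φ` times `∫ φ (u n)⁴ - 2 ∫ φ m²`, up to an error
`ε (1 + ∫_K u⁴)`. (2) If `∫ φ m > 0`, `∫ φ (u n)⁴ → 3 ∫ φ m²` (the value for the Gaussian wave with
local mass `m`) and `∫_K (u n)⁴` is bounded, then for every `η > 0` there is `s > 0` with
`∫_{|u n| > s} φ ≥ (∫ φ m)² / ∫ φ m² - η` for all large `n`; for a quantum ergodic sequence the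
right hand side is `∫ φ - η`. -/
theorem result (Ω : Set ℂ) (hΩ : IsOpen Ω) (lam : ℕ → ℝ) (hpos : ∀ n, 0 < lam n)
    (hlam : Tendsto lam atTop atTop) (u : ℕ → ℂ → ℝ) (hu : ∀ n, ContDiffOn ℝ ∞ (u n) Ω)
    (heq : ∀ n, ∀ z ∈ Ω, lap (u n) z + lam n * u n z = 0)
    (m : ℂ → ℝ) (hm : ∀ K : Set ℂ, IsCompact K → K ⊆ Ω → MemLp m 2 (volume.restrict K))
    (ν : Kernel ℂ ℝ) [IsMarkovKernel ν]
    (hsc : ∀ φ, TF Ω φ → ∀ k : ℕ, Tendsto (fun n => ∫ z, (φ z : ℂ) * ((u n z : ℂ) *
      (D (lam n))^[k] (fun w => (u n w : ℂ)) z)) atTop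
      (𝓝 (∫ z, (φ z : ℂ) * ((m z : ℂ) * ∫ α, sym α ^ k ∂(ν z)))))
    (hpar : ∀ᵐ z ∂(volume.restrict Ω), parallel (ν z) = 0)
    (K : Set ℂ) (hK : IsCompact K) (hKΩ : K ⊆ Ω)
    (φ : ℂ → ℝ) (hφ : TF (interior K) φ) (hφ0 : ∀ z, 0 ≤ φ z) :
    (∀ ε : ℝ, 0 < ε → ∃ s : ℝ, 0 < s ∧ ∀ᶠ n in atTop, (∫ z, φ z * m z) ^ 2 ≤
      (∫ z in {z | z ∈ Ω ∧ s < |u n z|}, φ z) *
        ((∫ z, φ z * u n z ^ 4) - 2 * ∫ z, φ z * m z ^ 2) +
          ε * (1 + ∫ z in K, u n z ^ 4)) ∧
    (0 < ∫ z, φ z * m z →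
      Tendsto (fun n => ∫ z, φ z * u n z ^ 4) atTop (𝓝 (3 * ∫ z, φ z * m z ^ 2)) →
      (∃ C : ℝ, ∀ᶠ n in atTop, ∫ z in K, u n z ^ 4 ≤ C) →
      ∀ η : ℝ, 0 < η → ∃ s : ℝ, 0 < s ∧ ∀ᶠ n in atTop,
        (∫ z, φ z * m z) ^ 2 / (∫ z, φ z * m z ^ 2) - η ≤
          ∫ z in {z | z ∈ Ω ∧ s < |u n z|}, φ z) := by
  have hD : ∀ n, D (lam n) = Pool.Agent.TH294.RS.DP (fun _ => 1) (1 / √(lam n)) := by
    intro n
    funext f z
    simp only [D, Pool.Agent.TH294.RS.DP, Pool.Agent.TH294.RS.dd, ofReal_one, one_mul]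
  have hs : ∀ n, 0 < √(lam n) := fun n => Real.sqrt_pos.2 (hpos n)
  have hl : Tendsto (fun n => 1 / √(lam n)) atTop (𝓝 0) := by
    have : Tendsto (fun n => √(lam n)) atTop atTop := Real.tendsto_sqrt_atTop.comp hlam
    exact (this.inv_tendsto_atTop).congr (fun n => by simp [one_div])
  have H : Pool.Agent.TH294.RG.RawG Ω (fun _ => 1) (fun n => 1 / √(lam n)) u
      (Pool.Agent.TH294.RG.MM m Pool.Agent.TH294.RG.ea ν) := by
    refine ⟨fun n => div_pos one_pos (hs n), hl, contDiffOn_const, fun _ _ => one_pos, hu,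
      fun n z hz => ?_, fun φ hφ k => ?_⟩
    · have h1 := heq n z hz
      have h2 : (1 / √(lam n)) ^ 2 = 1 / lam n := by
        rw [div_pow, Real.sq_sqrt (hpos n).le, one_pow]
      have h3 := (hpos n).ne'
      have h4 : lap (u n) z = -(lam n * u n z) := by linarith
      rw [h2, h4]
      field_simp
      ring
    · refine (hsc φ hφ k).congr fun n => ?_
      rw [hD n]
  have hp : ∀ᵐ z ∂(volume.restrict Ω), Pool.Agent.TH294.RG.par Pool.Agent.TH294.RG.ea (ν z) = 0 := by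
    filter_upwards [hpar] with z hz
    simp only [Pool.Agent.TH294.RG.par, Pool.Agent.TH294.RG.ea_par]
    exact hz
  have main : ∀ ε : ℝ, 0 < ε → ∃ s : ℝ, 0 < s ∧ ∀ᶠ n in atTop, (∫ z, φ z * m z) ^ 2 ≤
      (∫ z in {z | z ∈ Ω ∧ s < |u n z|}, φ z) *
        ((∫ z, φ z * u n z ^ 4) - 2 * ∫ z, φ z * m z ^ 2) +
          ε * (1 + ∫ z in K, u n z ^ 4) := by
    intro ε hε
    have key := Pool.Agent.TH421.AC.small_rel hΩ hm hp H hK hKΩ hφ hφ0 hε
    obtain ⟨s, hs', hs0⟩ := (key.and self_mem_nhdsWithin).exists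
    exact ⟨s, hs0, hs'⟩
  refine ⟨main, ?_⟩
  intro hm0 h4 hC η hη
  obtain ⟨C, hC⟩ := hC
  have hV : ∀ n s, ∫ z in {z | z ∈ Ω ∧ s < |u n z|}, φ z ≤ ∫ z, φ z := fun n s =>
    setIntegral_le_integral (hφ.1.continuous.integrable_of_hasCompactSupport hφ.2.1)
      (Eventually.of_forall hφ0)
  have hV0 : ∀ n s, 0 ≤ ∫ z in {z | z ∈ Ω ∧ s < |u n z|}, φ z := fun n s =>
    integral_nonneg fun z => hφ0 z
  obtain ⟨V, hVd⟩ : ∃ V : ℝ, V = ∫ z, φ z := ⟨_, rfl⟩
  have hVn : 0 ≤ V := by rw [hVd]; exact integral_nonneg hφ0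
  obtain ⟨A, hA⟩ : ∃ A : ℝ, A = ∫ z, φ z * m z ^ 2 := ⟨_, rfl⟩
  obtain ⟨X, hX⟩ : ∃ X : ℝ, X = ∫ z, φ z * m z := ⟨_, rfl⟩
  rw [← hA] at h4
  simp only [← hA, ← hX] at main ⊢
  rw [← hX] at hm0
  have hA0 : 0 ≤ A := by rw [hA]; exact integral_nonneg fun z => mul_nonneg (hφ0 z) (sq_nonneg _)
  have hApos : 0 < A := by
    rcases hA0.lt_or_eq with h | h
    · exact h
    · exfalso
      -- then the inequality gives `X ^ 2 ≤ 0`
      have hC0 : 0 ≤ max C 0 := le_max_right _ _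
      have hε : 0 < X ^ 2 / (2 * (V + 1 + max C 0)) := by positivity
      obtain ⟨s, hs0, hs1⟩ := main _ hε
      have hlim : ∀ᶠ n in atTop, |(∫ z, φ z * u n z ^ 4) - 3 * A| < X ^ 2 / (4 * (V + 1)) := by
        have := (Metric.tendsto_nhds.1 h4) (X ^ 2 / (4 * (V + 1))) (by positivity)
        simpa [Real.dist_eq] using this
      obtain ⟨n, ⟨h1, h2⟩, h3⟩ := ((hs1.and hlim).and hC).exists
      rw [← h] at h1 h2
      have h5 : (∫ z, φ z * u n z ^ 4) ≤ X ^ 2 / (4 * (V + 1)) := by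
        have := (abs_lt.1 h2).2; linarith
      have h5' : 0 ≤ ∫ z, φ z * u n z ^ 4 := integral_nonneg fun z =>
        mul_nonneg (hφ0 z) (by positivity)
      have h6 : (∫ z in {z | z ∈ Ω ∧ s < |u n z|}, φ z) * ((∫ z, φ z * u n z ^ 4) - 2 * 0) ≤
          X ^ 2 / 4 := by
        rw [mul_zero, sub_zero]
        calc (∫ z in {z | z ∈ Ω ∧ s < |u n z|}, φ z) * (∫ z, φ z * u n z ^ 4) ≤
              (V + 1) * (X ^ 2 / (4 * (V + 1))) := by
              apply mul_le_mul _ h5 h5' (by positivity)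
              have := hV n s
              rw [← hVd] at this
              linarith
          _ = X ^ 2 / 4 := by field_simp
      have h7 : X ^ 2 / (2 * (V + 1 + max C 0)) * (1 + ∫ z in K, u n z ^ 4) ≤ X ^ 2 / 2 := by
        calc X ^ 2 / (2 * (V + 1 + max C 0)) * (1 + ∫ z in K, u n z ^ 4) ≤
              X ^ 2 / (2 * (V + 1 + max C 0)) * (V + 1 + max C 0) := by
              apply mul_le_mul_of_nonneg_left _ hε.le
              have := le_max_left C 0
              linarith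
          _ = X ^ 2 / 2 := by
              have : V + 1 + max C 0 ≠ 0 := by positivity
              field_simp
      have h8 : 0 < X ^ 2 := by positivity
      linarith
  -- the main part
  obtain ⟨κ, hκ⟩ : ∃ κ : ℝ, κ = η * A / (2 * (V + 2 + max C 0)) := ⟨_, rfl⟩
  have hC0 : 0 ≤ max C 0 := le_max_right _ _
  have hκ0 : 0 < κ := by rw [hκ]; positivity
  obtain ⟨s, hs0, hs1⟩ := main κ hκ0
  refine ⟨s, hs0, ?_⟩
  have hlim : ∀ᶠ n in atTop, |(∫ z, φ z * u n z ^ 4) - 3 * A| < κ := by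
    have := (Metric.tendsto_nhds.1 h4) κ hκ0
    simpa [Real.dist_eq] using this
  filter_upwards [hs1, hlim, hC] with n h1 h2 h3
  have h5 : (∫ z, φ z * u n z ^ 4) ≤ 3 * A + κ := by
    have := (abs_lt.1 h2).2; linarith
  obtain ⟨B, hB⟩ : ∃ B : ℝ, B = ∫ z in {z | z ∈ Ω ∧ s < |u n z|}, φ z := ⟨_, rfl⟩
  have hB0 : 0 ≤ B := by rw [hB]; exact hV0 n s
  have hBV : B ≤ V := by rw [hB, hVd]; exact hV n s
  rw [← hB] at h1 ⊢
  have h6 : B * ((∫ z, φ z * u n z ^ 4) - 2 * A) ≤ B * A + V * κ := by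
    calc B * ((∫ z, φ z * u n z ^ 4) - 2 * A) ≤ B * (A + κ) :=
          mul_le_mul_of_nonneg_left (by linarith) hB0
      _ = B * A + B * κ := by ring
      _ ≤ B * A + V * κ := by
          have := mul_le_mul_of_nonneg_right hBV hκ0.le
          linarith
  have h7 : κ * (1 + ∫ z in K, u n z ^ 4) ≤ κ * (1 + max C 0) := by
    apply mul_le_mul_of_nonneg_left _ hκ0.le
    have := le_max_left C 0
    linarith
  have h8 : X ^ 2 ≤ B * A + κ * (V + 2 + max C 0) := by nlinarith
  have h9 : κ * (V + 2 + max C 0) = η * A / 2 := by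
    rw [hκ]
    have : V + 2 + max C 0 ≠ 0 := by positivity
    field_simp
  rw [h9] at h8
  have h10 : X ^ 2 / A ≤ B + η / 2 := by
    rw [div_le_iff₀ hApos]
    linarith
  linarith

end Pool.Agent.Results.MP_6b977f_mp.SmallValues
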