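import Pool.Agent.R989.T3f

/-!
# Third order local statistics of high energy eigenfunctions of planar domains (MP_6b977f_mp)

The plane is `ℂ`; `dx f z`, `dy f z` are the partial derivatives `fderiv ℝ f z 1`,
`fderiv ℝ f z I`, `lap f = dx (dx f) + dy (dy f)`; `TF U φ` says that `φ : ℂ → ℝ` is smooth with
compact support contained in `U`.

The operator `D = λ^{-1/2} (∂x - i ∂y)` has, at a unit momentum of direction `α`, the symbol
`sym α = i exp(-iα)`. The functions `W k` (`k ∈ ℤ`) are the field `u` with the Fourier multiplier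
`(sym α)^k`; all normalised derivatives of `u` are linear combinations of them. The hypothesis `hsc`
says that `u n` has the semiclassical measure `m(z) ν_z(dα) dz` on the unit cosphere bundle over
`Ω`. Quantum ergodicity is not assumed (it is the case `m = 1`, `ν_z` uniform, which is in the
starting file `ThreePointFunctions`): the sequence may be any sequence of eigenfunctions of a
billiard, also with an irregular direction distribution. For the random wave all third moments
vanish. They do so in the limit if almost no `ν_z` charges pairs of directions with an angle of 60 or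
120 degrees, for instance if `ν_z` has no atoms; in general they are bounded by the probability of
such pairs.

Proof: the development `Pool/Agent/R989` of the starting tree (there for surfaces).
-/

set_option autoImplicit false
open MeasureTheory Filter Topology Complex ProbabilityTheory
open scoped ContDiff ENNReal

namespace Pool.Agent.Results.MP_6b977f_mp.ThirdMoments

open Pool.Agent.W745.RW

/-- the normalised derivative `λ^{-1/2} (∂x - i ∂y)` -/
noncomputable def D (lam : ℝ) (f : ℂ → ℂ) (z : ℂ) : ℂ :=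
  ((1 / √lam : ℝ) : ℂ) * (dx f z - I * dy f z)

/-- the symbol of `D` at a unit momentum of direction `α` -/
noncomputable def sym (α : ℝ) : ℂ := I * Complex.exp (-(α : ℂ) * I)

/-- `W k = D^k u` for `k ≥ 0` and `W k = (-1)^k conj (D^|k| u)` for `k < 0` -/
noncomputable def W (lam : ℝ) (u : ℂ → ℝ) : ℤ → ℂ → ℂ
  | Int.ofNat k => (D lam)^[k] (fun w => (u w : ℂ))
  | Int.negSucc k => fun z => (-1) ^ (k + 1) *
      (starRingEnd ℂ) ((D lam)^[k + 1] (fun w => (u w : ℂ)) z)

/-- the probability that two independent directions of law `ν` form an angle of 60 or 120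
degrees -/
noncomputable def resonant (ν : Measure ℝ) : ℝ :=
  (ν.prod ν).real {p | Real.sin (3 * (p.1 - p.2)) = 0 ∧ Real.sin (p.1 - p.2) ≠ 0}

/-- `1` if `a, b, c` are congruent modulo `3`, `-1/2` if they are not but `3` divides `a + b + c`,
and `0` if `3` does not divide `a + b + c` -/
noncomputable def t3 (a b c : ℤ) : ℝ :=
  if a % 3 = b % 3 ∧ b % 3 = c % 3 then 1 else if (a + b + c) % 3 = 0 then -(1 / 2) else 0

/-- **Result.** Let `u n` be real solutions of `Δu + λ_n u = 0` on the open set `Ω ⊆ ℝ²`,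
`λ_n → ∞`, with semiclassical measure `m(z) ν_z dz`, `m` locally square integrable. Let `K ⊆ Ω` be
compact, `φ ≥ 0` a test function supported in its interior, and `a, b, c` integers. (1) For all
large `n` the local third moment of `(W a, W b, W c)` is at most
`|t3 a b c| (∫ φ m)^{1/2} (∫ φ m² resonant(ν_z))^{1/2}`, up to an error `ε (1 + ∫_K u⁴)^{3/4}`.
(2) If `∫_K (u n)⁴` is bounded and `ν_z` is not resonant for almost all `z`, then the local third
moments tend to zero. -/
theorem result (Ω : Set ℂ) (hΩ : IsOpen Ω) (lam : ℕ → ℝ) (hpos : ∀ n, 0 < lam n)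
    (hlam : Tendsto lam atTop atTop) (u : ℕ → ℂ → ℝ) (hu : ∀ n, ContDiffOn ℝ ∞ (u n) Ω)
    (heq : ∀ n, ∀ z ∈ Ω, lap (u n) z + lam n * u n z = 0)
    (m : ℂ → ℝ) (hm : ∀ K : Set ℂ, IsCompact K → K ⊆ Ω → MemLp m 2 (volume.restrict K))
    (ν : Kernel ℂ ℝ) [IsMarkovKernel ν]
    (hsc : ∀ φ, TF Ω φ → ∀ k : ℕ, Tendsto (fun n => ∫ z, (φ z : ℂ) * ((u n z : ℂ) *
      (D (lam n))^[k] (fun w => (u n w : ℂ)) z)) atTop
      (𝓝 (∫ z, (φ z : ℂ) * ((m z : ℂ) * ∫ α, sym α ^ k ∂(ν z)))))
    (K : Set ℂ) (hK : IsCompact K) (hKΩ : K ⊆ Ω) (φ : ℂ → ℝ) (hφ : TF (interior K) φ)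
    (hφ0 : ∀ z, 0 ≤ φ z) (a b c : ℤ) :
    (∀ ε : ℝ, 0 < ε → ∀ᶠ n in atTop, ‖∫ z, (φ z : ℂ) * (W (lam n) (u n) a z *
        W (lam n) (u n) b z * W (lam n) (u n) c z)‖ ≤
      |t3 a b c| * √((∫ z, φ z * m z) * ∫ z, φ z * (m z ^ 2 * resonant (ν z))) +
        ε * (1 + ∫ z in K, u n z ^ 4) ^ (3 / 4 : ℝ)) ∧
    ((∃ C : ℝ, ∀ᶠ n in atTop, ∫ z in K, u n z ^ 4 ≤ C) →
      (∀ᵐ z ∂(volume.restrict Ω), resonant (ν z) = 0) →
      Tendsto (fun n => ∫ z, (φ z : ℂ) * (W (lam n) (u n) a z *
        W (lam n) (u n) b z * W (lam n) (u n) c z)) atTop (𝓝 0)) := by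
  have hDR : ∀ l, Pool.Agent.TH294.RS.RD (fun _ => 1) l = D l := by
    intro l
    funext f z
    simp only [Pool.Agent.TH294.RS.RD, D, mul_one]
  have hW : ∀ n k, W (lam n) (u n) k = Pool.Agent.TH294.RS.WW (fun _ => 1) (lam n) (u n) k := by
    intro n k
    cases k with
    | ofNat k => simp only [W, Pool.Agent.TH294.RS.WW, hDR]
    | negSucc k => simp only [W, Pool.Agent.TH294.RS.WW, hDR]
  have hr : ∀ z, Pool.Agent.R989.Th3.res Pool.Agent.TH294.RG.ea (ν z) = resonant (ν z) := by
    intro z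
    simp only [Pool.Agent.R989.Th3.res, Pool.Agent.R989.Th3.RS_ea]
    rfl
  have ht : Pool.Agent.R989.Th3.tt a b c = t3 a b c := rfl
  have main : ∀ ε : ℝ, 0 < ε → ∀ᶠ n in atTop, ‖∫ z, (φ z : ℂ) * (W (lam n) (u n) a z *
        W (lam n) (u n) b z * W (lam n) (u n) c z)‖ ≤
      |t3 a b c| * √((∫ z, φ z * m z) * ∫ z, φ z * (m z ^ 2 * resonant (ν z))) +
        ε * (1 + ∫ z in K, u n z ^ 4) ^ (3 / 4 : ℝ) := by
    intro ε hε
    have key := Pool.Agent.R989.Th3.third_met (ρ := fun _ => 1) hΩ contDiffOn_const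
      (fun _ _ => one_pos) hpos hlam hu (fun n z hz => by rw [one_mul]; exact heq n z hz) hm
      (ν := ν) (fun φ hφ k => by
        have h1 := hsc φ hφ k
        simp only [mul_one, hDR]
        exact h1) hK hKΩ hφ hφ0 a b c hε
    simp only [hr, ht, mul_one] at key
    simp only [hW]
    exact key
  refine ⟨main, ?_⟩
  rintro ⟨C, hC⟩ hres
  have hz : ∫ z, φ z * (m z ^ 2 * resonant (ν z)) = 0 := by
    have h1 : ∀ᵐ z ∂(volume : Measure ℂ), φ z * (m z ^ 2 * resonant (ν z)) = 0 := by
      have h2 := (ae_restrict_iff' hΩ.measurableSet).1 hres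
      filter_upwards [h2] with z hz
      by_cases hzΩ : z ∈ Ω
      · rw [hz hzΩ]; simp
      · have : φ z = 0 := by
          by_contra hne
          exact hzΩ (hKΩ (interior_subset (hφ.2.2 (subset_tsupport _ hne))))
        rw [this, zero_mul]
    rw [integral_congr_ae h1, integral_zero]
  rw [hz, mul_zero, Real.sqrt_zero, mul_zero] at main
  have hC0 : 0 ≤ max C 0 := le_max_right _ _
  rw [tendsto_zero_iff_norm_tendsto_zero, Metric.tendsto_nhds]
  intro ε hε
  have hB : 0 < (1 + max C 0) ^ (3 / 4 : ℝ) := Real.rpow_pos_of_pos (by linarith) _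
  filter_upwards [main (ε / (2 * (1 + max C 0) ^ (3 / 4 : ℝ))) (by positivity), hC] with n h1 h2
  rw [Real.dist_eq, sub_zero, abs_of_nonneg (norm_nonneg _)]
  refine lt_of_le_of_lt h1 ?_
  rw [zero_add]
  have h3 : (1 + ∫ z in K, u n z ^ 4) ^ (3 / 4 : ℝ) ≤ (1 + max C 0) ^ (3 / 4 : ℝ) := by
    apply Real.rpow_le_rpow _ _ (by norm_num)
    · have : 0 ≤ ∫ z in K, u n z ^ 4 := integral_nonneg fun z => by positivity
      linarith
    · have := le_max_left C 0
      linarith
  calc ε / (2 * (1 + max C 0) ^ (3 / 4 : ℝ)) * (1 + ∫ z in K, u n z ^ 4) ^ (3 / 4 : ℝ) ≤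
        ε / (2 * (1 + max C 0) ^ (3 / 4 : ℝ)) * (1 + max C 0) ^ (3 / 4 : ℝ) := by
        gcongr
    _ = ε / 2 := by field_simp
    _ < ε := by linarith

end Pool.Agent.Results.MP_6b977f_mp.ThirdMoments
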